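import Pool.Agent.Work.MP_f2148a_nt.M56.GDefs
import Pool.Agent.Work.MP_f2148a_nt.M56.S2.OwnG
import Pool.Agent.Work.MP_f2148a_nt.M56.S2.SumM
import Pool.Agent.Work.MP_f2148a_nt.M56.S2.SumL
import Pool.Agent.Work.MP_f2148a_nt.M56.S2.Small

set_option autoImplicit false

/-!
BLOCK S output (helper4, helper98): the giant solutions. Block E (helper35) starts from here.
-/

namespace Pool.Agent.Work.MP_f2148a_nt.M56

open S2 in
/-- Main theorem of blocks S, C, G. -/
theorem giants : ∃ A δ : ℝ, 0 < δ ∧ ∀ K : ℝ, 1 ≤ K →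
    ∀ S : Finset (ℤ × ℤ), (∀ p ∈ S, GiantP K p) → (S.card : ℝ) ≤ A * K ^ (5 / 6 - δ) := by
  classical
  obtain ⟨C₁, CL, KL, hC₁, hKL, HL⟩ := sumL
  obtain ⟨CM, KM, hKM, HM⟩ := sumM C₁ hC₁
  obtain ⟨KO, hKO, HO⟩ := ownG
  obtain ⟨N, hN, HN⟩ := small (max (max KL KM) KO)
  refine ⟨|CM| + |CL| + N, 6 / 100000, by norm_num, fun K hK S hS => ?_⟩
  have hpow : 1 ≤ K ^ (5 / 6 - 6 / 100000 : ℝ) := Real.one_le_rpow hK (by norm_num)
  have hpow0 : 0 ≤ K ^ (5 / 6 - 6 / 100000 : ℝ) := by linarith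
  rcases le_total K (max (max KL KM) KO) with hKs | hKl
  · have h1 := HN K hK hKs S hS
    have h2 : N ≤ N * K ^ (5 / 6 - 6 / 100000 : ℝ) := le_mul_of_one_le_right hN hpow
    have h3 : 0 ≤ (|CM| + |CL|) * K ^ (5 / 6 - 6 / 100000 : ℝ) := by positivity
    linarith
  · have hKL' : KL ≤ K := (le_max_left _ _).trans ((le_max_left _ _).trans hKl)
    have hKM' : KM ≤ K := (le_max_right _ _).trans ((le_max_left _ _).trans hKl)
    have hKO' : KO ≤ K := (le_max_right _ _).trans hKl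
    have hex : ∀ p : {p // p ∈ S}, ∃ t : Dt, Gi K t ∧ t.x = p.1.1 ∧ t.y = p.1.2 :=
      fun p => HO K hKO' p.1 (hS p.1 p.2)
    choose f hf hfx hfy using hex
    have hinj : Function.Injective f := by
      intro p q hpq
      apply Subtype.ext
      apply Prod.ext
      · rw [← hfx p, ← hfx q, hpq]
      · rw [← hfy p, ← hfy q, hpq]
    obtain ⟨J, hJ⟩ : ∃ J : Finset Dt, J = (Finset.univ : Finset {p // p ∈ S}).image f := ⟨_, rfl⟩
    have hJc : J.card = S.card := by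
      rw [hJ, Finset.card_image_of_injective _ hinj, Finset.card_univ, Fintype.card_coe]
    have hJG : ∀ t ∈ J, Gi K t := by
      intro t ht
      rw [hJ] at ht
      obtain ⟨p, -, rfl⟩ := Finset.mem_image.1 ht
      exact hf p
    have hJI : Inj2 J := by
      intro t ht t' ht' hx hy
      rw [hJ] at ht ht'
      obtain ⟨p, -, rfl⟩ := Finset.mem_image.1 ht
      obtain ⟨q, -, rfl⟩ := Finset.mem_image.1 ht'
      have : p = q := by
        apply Subtype.ext
        apply Prod.ext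
        · rw [← hfx p, ← hfx q, hx]
        · rw [← hfy p, ← hfy q, hy]
      rw [this]
    have hsub : ∀ J' : Finset Dt, J' ⊆ J → Inj2 J' :=
      fun J' h t ht t' ht' => hJI t (h ht) t' (h ht')
    have e1 := HM K hKM' (J.filter fun t => 1 / t.τ ≤ K ^ C₁)
      (fun t ht => ⟨hJG t (Finset.mem_filter.1 ht).1, (Finset.mem_filter.1 ht).2⟩)
      (hsub _ (Finset.filter_subset _ _))
    have e2 := HL K hKL' (J.filter fun t => ¬ 1 / t.τ ≤ K ^ C₁)
      (fun t ht => ⟨hJG t (Finset.mem_filter.1 ht).1, (not_le.1 (Finset.mem_filter.1 ht).2).le⟩)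
      (hsub _ (Finset.filter_subset _ _))
    have e3 : (J.card : ℝ) = ((J.filter fun t => 1 / t.τ ≤ K ^ C₁).card : ℝ)
        + ((J.filter fun t => ¬ 1 / t.τ ≤ K ^ C₁).card : ℝ) := by
      rw [← Nat.cast_add, Finset.card_filter_add_card_filter_not]
    rw [← hJc, e3]
    have e4 : CL * K ^ (83 / 100 : ℝ) ≤ |CL| * K ^ (5 / 6 - 6 / 100000 : ℝ) := by
      have h1 : K ^ (83 / 100 : ℝ) ≤ K ^ (5 / 6 - 6 / 100000 : ℝ) :=
        Real.rpow_le_rpow_of_exponent_le hK (by norm_num)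
      calc CL * K ^ (83 / 100 : ℝ) ≤ |CL| * K ^ (83 / 100 : ℝ) :=
            mul_le_mul_of_nonneg_right (le_abs_self _) (by positivity)
        _ ≤ _ := mul_le_mul_of_nonneg_left h1 (abs_nonneg _)
    have e5 : CM * K ^ (5 / 6 - 6 / 100000 : ℝ) ≤ |CM| * K ^ (5 / 6 - 6 / 100000 : ℝ) :=
      mul_le_mul_of_nonneg_right (le_abs_self _) hpow0
    have e6 : 0 ≤ N * K ^ (5 / 6 - 6 / 100000 : ℝ) := by positivity
    linarith

end Pool.Agent.Work.MP_f2148a_nt.M56
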