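import Pool.Agent.Work.MP_f2148a_nt.M56.Defs

/-!
BLOCK G (architect helper13): the box theorem. See NOTES_f2148a_h4.md, section G.
-/

namespace Pool.Agent.Work.MP_f2148a_nt.M56

/-- The conditions on one point `(s,t,X,Y)` of a box of radius `ρ` around the reference
solution `(x,y)` with data `α, β, ω, τ`. -/
def InBox (x y α β : ℤ) (ω τ ρ σ Q η : ℝ) (p : ℤ × ℤ × ℤ × ℤ) : Prop :=
  3 * p.1 * F0 x y p.2.2.1 p.2.2.2 + p.2.1 * G1 x y α β p.2.2.1 p.2.2.2 = 3 ∧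
  J432 (q4 x y α β p.1 p.2.1) ≠ 0 ∧
  |τ * (p.2.2.2 : ℝ)| ≤ ρ * |((p.2.2.1 : ℝ) + ω * p.2.2.2) / τ| ∧
  Q ≤ |((p.2.2.1 : ℝ) + ω * p.2.2.2) / τ| ∧
  |((p.2.2.1 : ℝ) + ω * p.2.2.2) / τ| ≤ Q ^ (1 + η) ∧
  1 ≤ |-(2 * ω * p.1) / (3 * α * τ) + p.2.1 * α / (3 * τ)| ∧
  |-(2 * ω * p.1) / (3 * α * τ) + p.2.1 * α / (3 * τ)| ≤ σ

end Pool.Agent.Work.MP_f2148a_nt.M56
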