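import Mathlib

/-!
# MP_f2148a_nt, asymptotic count of the integral points on all Mordell curves: common definitions

See the note `NOTES_f2148a_h4.md` (team store). Notation of the note:
`F⁰ = X⁴ - 6xX²Y² + 8yXY³ - 3x²Y⁴`, `z⁰ = α(X³+3xXY²-4yY³) + β(X²Y-xY³)`, `ω = β/(3α)`,
`ξ = (X+ωY)/τ`, `υ = τY`, `z⁰ = Δ(ξ³+3λξυ²+cυ³)`, pencil `3F = 3sF⁰ + tG₁`.
-/

namespace Pool.Agent.Work.MP_f2148a_nt.M56

/-- An integral binary cubic form `aX³+bX²Y+cXY²+dY³`. -/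
@[ext] structure Cub where
  /-- coefficient of `X³` -/
  a : ℤ
  /-- coefficient of `X²Y` -/
  b : ℤ
  /-- coefficient of `XY²` -/
  c : ℤ
  /-- coefficient of `Y³` -/
  d : ℤ
deriving DecidableEq

/-- The discriminant of a binary cubic form. -/
def Cub.disc (z : Cub) : ℤ :=
  z.b ^ 2 * z.c ^ 2 - 4 * z.a * z.c ^ 3 - 4 * z.b ^ 3 * z.d - 27 * z.a ^ 2 * z.d ^ 2
    + 18 * z.a * z.b * z.c * z.d

/-- The form `z(pX+qY, rX+sY)`. -/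
def Cub.act (z : Cub) (p q r s : ℤ) : Cub where
  a := z.a * p ^ 3 + z.b * p ^ 2 * r + z.c * p * r ^ 2 + z.d * r ^ 3
  b := 3 * z.a * p ^ 2 * q + z.b * (2 * p * q * r + p ^ 2 * s)
    + z.c * (q * r ^ 2 + 2 * p * r * s) + 3 * z.d * r ^ 2 * s
  c := 3 * z.a * p * q ^ 2 + z.b * (q ^ 2 * r + 2 * p * q * s)
    + z.c * (2 * q * r * s + p * s ^ 2) + 3 * z.d * r * s ^ 2
  d := z.a * q ^ 3 + z.b * q ^ 2 * s + z.c * q * s ^ 2 + z.d * s ^ 3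

/-- `z` is `Δ(ξ³+3λξυ²+cυ³)` with `ξ = (X+ωY)/τ`, `υ = τY` (coefficient by coefficient). -/
def Dep (z : Cub) (ω τ Δ l c : ℝ) : Prop :=
  (z.a : ℝ) = Δ / τ ^ 3 ∧ (z.b : ℝ) = 3 * Δ * ω / τ ^ 3 ∧
  (z.c : ℝ) = 3 * Δ * ω ^ 2 / τ ^ 3 + 3 * Δ * l * τ ∧
  (z.d : ℝ) = Δ * ω ^ 3 / τ ^ 3 + 3 * Δ * l * ω * τ + Δ * c * τ ^ 3

/-- Two framed cubics are `ρ`-close: some unimodular integral substitution
`X ↦ pX+qY, Y ↦ rX+sY` takes `z` to `z'`, and the real vectors `τ(1,0)` and `τ'(p,r)`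
have a wedge product of absolute value at most `ρ`. -/
def Close (ρ : ℝ) (z : Cub) (τ : ℝ) (z' : Cub) (τ' : ℝ) : Prop :=
  ∃ p q r s : ℤ, p * s - q * r = 1 ∧ z' = z.act p q r s ∧ |(r : ℝ)| * τ * τ' ≤ ρ

/-- The quartic `F⁰` of the integral point `(x,y)`. -/
def F0 (x y X Y : ℤ) : ℤ := X ^ 4 - 6 * x * X ^ 2 * Y ^ 2 + 8 * y * X * Y ^ 3 - 3 * x ^ 2 * Y ^ 4

/-- The second member `G₁` of the pencil (`G₁ = Wr(z⁰, 3αXY²+βY³)/3`). -/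
def G1 (x y α β X Y : ℤ) : ℤ :=
  2 * Y * (3 * α ^ 2 * X ^ 3 + 3 * α * β * X ^ 2 * Y + β ^ 2 * X * Y ^ 2
    + (3 * α * β * x + 6 * α ^ 2 * y) * Y ^ 3)

/-- The cubic `z⁰ = α(X³+3xXY²-4yY³)+β(X²Y-xY³)`. -/
def Z0 (x y α β : ℤ) : Cub := ⟨α, β, 3 * α * x, -(4 * α * y + β * x)⟩

/-- The coefficients of the quartic `3F = 3sF⁰+tG₁`. -/
def q4 (x y α β s t : ℤ) : Fin 5 → ℤ
  | 0 => 3 * s
  | 1 => 6 * α ^ 2 * t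
  | 2 => -18 * x * s + 6 * α * β * t
  | 3 => 24 * y * s + 2 * β ^ 2 * t
  | 4 => -9 * x ^ 2 * s + (6 * α * β * x + 12 * α ^ 2 * y) * t

/-- `27 · J(F)` times `16`, i.e. `J` (with `J(F⁰) = -4k`) of the quartic with coefficients `f`
(without binomials): `432 J(f) = 72ace+9bcd-27ad²-27eb²-2c³`. -/
def J432 (f : Fin 5 → ℤ) : ℤ :=
  72 * f 0 * f 2 * f 4 + 9 * f 1 * f 2 * f 3 - 27 * f 0 * f 3 ^ 2 - 27 * f 4 * f 1 ^ 2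
    - 2 * f 2 ^ 3

/-- The Hessian `f_XX f_YY - f_XY²` of the quartic with coefficients `f`, at `(X,Y)`. -/
def Hq (f : Fin 5 → ℤ) (X Y : ℤ) : ℤ :=
  (12 * f 0 * X ^ 2 + 6 * f 1 * X * Y + 2 * f 2 * Y ^ 2)
    * (2 * f 2 * X ^ 2 + 6 * f 3 * X * Y + 12 * f 4 * Y ^ 2)
    - (3 * f 1 * X ^ 2 + 4 * f 2 * X * Y + 3 * f 3 * Y ^ 2) ^ 2

end Pool.Agent.Work.MP_f2148a_nt.M56
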