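import Pool.Agent.Work.MP_f2148a_nt.M56.Defs

/-!
Definition of the giant solutions.
-/

namespace Pool.Agent.Work.MP_f2148a_nt.M56

/-- A primitive giant pair for `K`. -/
def GiantP (K : ℝ) (p : ℤ × ℤ) : Prop :=
  0 < p.2 ∧ K ^ (53 / 20 : ℝ) ≤ (p.1 : ℝ) ∧
  K / 2 < |((p.2 ^ 2 - p.1 ^ 3 : ℤ) : ℝ)| ∧ |((p.2 ^ 2 - p.1 ^ 3 : ℤ) : ℝ)| ≤ K ∧
  ∀ d : ℤ, d ^ 2 ∣ p.1 → d ^ 3 ∣ p.2 → IsUnit d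

end Pool.Agent.Work.MP_f2148a_nt.M56
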