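import Pool.Agent.Work.MP_f2148a_nt.M56.C.SepI
import Pool.Agent.Work.MP_f2148a_nt.M56.C.SepII

/-!
BLOCK C (architect helper19): counting of separated families of framed integral cubics.
See NOTES_f2148a_h4.md, section C.
-/

namespace Pool.Agent.Work.MP_f2148a_nt.M56

/-- Type I families (`|l| = 1`, `|c| ≤ c₀` small). -/
theorem sep_I : ∃ C : ℝ, ∀ (D c₀ ρ : ℝ), 1 / 8 ≤ D → 0 ≤ c₀ → c₀ ≤ 1 / 100 → 0 < ρ → ρ ≤ 1 / 100 →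
    ∀ (ι : Type) (J : Finset ι) (z : ι → Cub) (ω τ Δ l c : ι → ℝ),
      (∀ i ∈ J, (z i).disc ≠ 0 ∧ 0 < τ i ∧ Dep (z i) (ω i) (τ i) (Δ i) (l i) (c i) ∧
        D ≤ Δ i ∧ Δ i ≤ 2 * D ∧ |l i| = 1 ∧ |c i| ≤ c₀) →
      (∀ i ∈ J, ∀ j ∈ J, i ≠ j → ¬ Close ρ (z i) (τ i) (z j) (τ j)) →
      (J.card : ℝ) ≤ C * D ^ 4 * (1 + Real.log (2 + D)) * (1 + c₀ / ρ) :=
  C.sep_I_main

/-- General families (crude bound). -/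
theorem sep_II : ∃ C : ℝ, ∀ (D ρ : ℝ), 1 / 8 ≤ D → 0 < ρ → ρ ≤ 1 / 100 →
    ∀ (ι : Type) (J : Finset ι) (z : ι → Cub) (ω τ Δ l c : ι → ℝ),
      (∀ i ∈ J, (z i).disc ≠ 0 ∧ 0 < τ i ∧ Dep (z i) (ω i) (τ i) (Δ i) (l i) (c i) ∧
        D ≤ Δ i ∧ Δ i ≤ 2 * D ∧ |l i| ≤ 1 ∧ |c i| ≤ 1) →
      (∀ i ∈ J, ∀ j ∈ J, i ≠ j → ¬ Close ρ (z i) (τ i) (z j) (τ j)) →
      (J.card : ℝ) ≤ C * D ^ 6 * (1 + Real.log (2 + D)) / ρ :=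
  C.sep_II_main

end Pool.Agent.Work.MP_f2148a_nt.M56
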